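import Mathlib
import Pool.Agent.J6H73.PS.Core
import Pool.Agent.J6H60.DR.CurveW2

/-!
# Closed points in linear systems on curves: sharp bounds for the truncated counting functions of
# groups of closed points, outside one set with a power saving
-/

set_option autoImplicit false
set_option linter.unusedSectionVars false

namespace Pool.Agent.J6H73.CP

open NumberField IsDedekindDomain Module Polynomial Pool.Agent.N753.DR Height
open Pool.Agent.N262.DR (lN_nonneg sum_under_le over_eq badS_finite pow_bound Bx_finite)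
open Pool.Agent.J6H60.DR (rk Pnt cnd near_finite)
open Pool.Agent.J6H73.PS (ES coreS)
open scoped LinearAlgebra.Projectivization

variable {K A : Type} [Field K] [NumberField K] [CommRing A] [IsDomain A]
  [Algebra K A] [Algebra K[X] A] [IsScalarTower K K[X] A] [Module.Finite K[X] A]
  [FaithfulSMul K[X] A]

/-- the zero of the member `P` is a closed point different from all the given ones, and the
truncated counting function of all of them together is at most `σ` times the height -/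
def BadQ {m q : ℕ} (u : Fin q → ℕ) (f : Fin m → A) (g : ∀ j, Fin (u j) → A) (S : Finset ℕ) (σ : ℝ)
    (P : ℙ K (Fin m → K)) : Prop :=
  ∃ (M : Type) (_ : Field M) (_ : NumberField M) (_ : Algebra K M) (φ : A →ₐ[K] M),
    Function.Surjective φ ∧ RingHom.ker φ = Ideal.span {mem f P.rep} ∧
    (∀ j, RingHom.ker φ ≠ Ideal.span (Set.range (g j))) ∧
    ∃ W : Finset (HeightOneSpectrum (𝓞 M)), (∀ j w, NearC S (g j) φ w → w ∈ W) ∧
      ∑ w ∈ W, lN w ≤ σ * Height.logHeight P.rep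

theorem cntQ (hdom : IsDomain (TensorProduct K (AlgebraicClosure K) A)) {m q : ℕ}
    (f : Fin m → A) (hf : LinearIndependent K f) (x : Fin q → Pnt K A) (u : Fin q → ℕ)
    (g : ∀ j, Fin (u j) → A) (hg : ∀ j, RingHom.ker (x j).ψ = Ideal.span (Set.range (g j)))
    (S : Finset ℕ) (σ : ℝ) (hσ : 0 ≤ σ) {ε : ℝ} (hε : 0 < ε) :
    ∃ C : ℝ, 0 < C ∧ ∀ U : ℝ, 0 ≤ U →
      {P : ℙ K (Fin m → K) | BadQ u f g S σ P ∧ Height.logHeight P.rep ≤ U}.Finite ∧
      ({P : ℙ K (Fin m → K) | BadQ u f g S σ P ∧ Height.logHeight P.rep ≤ U}.ncard : ℝ) ≤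
        C * Real.exp ((((m - cnd x f : ℕ) : ℝ) + σ + ε) * U) := by
  classical
  have hg0 : ∀ j i, (x j).ψ (g j i) = 0 := by
    intro j i
    have : g j i ∈ RingHom.ker (x j).ψ := by
      rw [hg j]; exact Ideal.subset_span ⟨i, rfl⟩
    exact this
  obtain ⟨BadR, C0, hC0, hR⟩ := Pool.Agent.N498.CV.t K m
  choose Bad0 hL using fun j => Pool.Agent.N488.CV.t K A (x j).L hdom m (u j) f hf (x j).ψ (g j)
    (hg0 j)
  set BadS := (badS_finite (K := K) S).toFinset with hBadS
  set Bad := (Finset.univ.biUnion Bad0) ∪ BadR ∪ BadS with hBad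
  set n : ℝ := (finrank ℚ K : ℝ) with hn
  have hn0 : 0 < n := by
    rw [hn]; exact_mod_cast (Module.finrank_pos : 0 < finrank ℚ K)
  have hn1 : 1 ≤ n := by
    rw [hn]; exact_mod_cast (Module.finrank_pos : 0 < finrank ℚ K)
  set ε₁ : ℝ := ε / (1 + σ) with hε₁
  have hε₁0 : 0 < ε₁ := by positivity
  have hε₁σ : ε₁ * (1 + σ) = ε := by
    rw [hε₁]
    field_simp
  obtain ⟨C1, hC1, hcore⟩ := coreS (K := K) (m := m) (fun j => (x j).L)
    (fun j i => (x j).ψ (f i)) Bad (ε := ε₁) hε₁0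
  set c0 : ℝ := max C0 1 with hc0
  have hc01 : 1 ≤ c0 := le_max_right _ _
  set ρ := cnd x f with hρ
  set e : ℝ := n * ((m - ρ : ℕ) : ℝ) + ε₁ with he
  have he0 : 0 ≤ e := by positivity
  refine ⟨C1 * (2 * c0) ^ |e|, by positivity, fun U hU => ?_⟩
  set y : ℝ := Real.exp (U / n) with hy
  have hy1 : 1 ≤ y := Real.one_le_exp (by positivity)
  set B : ℕ := ⌈c0 * y⌉₊ with hB
  have hBl : c0 * y ≤ B := Nat.le_ceil _
  have hBu : (B : ℝ) ≤ 2 * c0 * y := by
    have := Nat.ceil_lt_add_one (a := c0 * y) (by positivity)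
    have : 1 ≤ c0 * y := one_le_mul_of_one_le_of_one_le hc01 hy1
    linarith
  have hyB : y ≤ B := by
    have : 1 * y ≤ c0 * y := mul_le_mul_of_nonneg_right hc01 (by positivity)
    linarith
  have hB1 : 1 ≤ B := by
    have : (1 : ℝ) ≤ B := hy1.trans hyB
    exact_mod_cast this
  set E := ES (fun j => (x j).L) (fun j i => (x j).ψ (f i)) Bad B (σ * U) with hE
  have hEf : E.Finite := (Bx_finite (K := K) m B).subset fun c hc => hc.1
  set T : Set (ℙ K (Fin m → K)) := {P | BadQ u f g S σ P ∧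
    Height.logHeight P.rep ≤ U} with hT
  have key : ∀ P ∈ T, ∃ c ∈ E, ∃ l : K, l ≠ 0 ∧ ∀ i, (c i : K) = l * P.rep i := by
    rintro P ⟨⟨M, _, _, _, φ, hφ, hker, hne, W, hW1, hWs⟩, hht⟩
    obtain ⟨c, l, hl, hcl, hprim, hsz⟩ := hR P.rep P.rep_nonzero
    have hmem : (mem f fun i => (c i : K)) = algebraMap K A l * mem f P.rep := by
      unfold mem
      rw [Finset.mul_sum]
      refine Finset.sum_congr rfl fun i _ => ?_
      show (c i : K) • f i = algebraMap K A l * (P.rep i • f i)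
      rw [hcl i, mul_smul, Algebra.smul_def l]
    have hlu : IsUnit (algebraMap K A l) := (isUnit_iff_ne_zero.2 hl).map _
    have hker' : RingHom.ker φ = Ideal.span {mem f fun i => (c i : K)} := by
      rw [hker, hmem, Ideal.span_singleton_mul_left_unit hlu]
    have heval : ∀ j, (x j).ψ (mem f fun i => (c i : K)) =
        ∑ i, algebraMap K (x j).L (c i : K) * (x j).ψ (f i) := by
      intro j
      unfold mem
      rw [map_sum]
      refine Finset.sum_congr rfl fun i _ => ?_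
      rw [map_smul, Algebra.smul_def]
    refine ⟨c, ⟨?_, ?_, W.image fun u => HeightOneSpectrum.under (𝓞 K) u, ?_, ?_⟩, l, hl, hcl⟩
    · intro j
      have h4 := hsz j
      have h5 : Real.exp (Height.logHeight P.rep / n) ≤ y :=
        Real.exp_le_exp.mpr (div_le_div_of_nonneg_right hht hn0.le)
      have h6 : (sz (c j) : ℝ) ≤ B := by
        refine h4.trans (le_trans ?_ hBl)
        exact mul_le_mul (le_max_left _ _) h5 (Real.exp_pos _).le (by positivity)
      exact_mod_cast h6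
    · intro j h0
      rw [← heval j] at h0
      apply hne j
      rw [← hg j]
      have hmax : (RingHom.ker φ).IsMaximal := RingHom.ker_isMaximal_of_surjective φ hφ
      refine hmax.eq_of_le (RingHom.ker_ne_top _) ?_
      rw [hker', Ideal.span_singleton_le_iff_mem]
      exact h0
    · intro j v hv w hw hev
      have hvR : v ∉ BadR := fun h => hv (by simp only [hBad, Finset.mem_union]; tauto)
      have hvL : v ∉ Bad0 j := fun h => hv (by
        simp only [hBad, Finset.mem_union]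
        exact Or.inl (Or.inl (Finset.mem_biUnion.2 ⟨j, Finset.mem_univ _, h⟩)))
      have hvS : v ∉ BadS := fun h => hv (by simp only [hBad, Finset.mem_union]; tauto)
      have hev' : w.valuation (x j).L ((x j).ψ (mem f fun i => (c i : K))) < 1 := by
        rw [heval j]
        exact hev
      obtain ⟨x', hx, hxX, hxg⟩ := hL j M φ c hφ hker' v hvL (hprim v hvR) w hw hev'
      have hunder := over_eq hx
      rw [Finset.mem_image]
      refine ⟨x', hW1 j x' ⟨?_, hxX, hxg⟩, hunder⟩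
      intro p hp hp0 hmem
      apply hvS
      rw [hBadS, Set.Finite.mem_toFinset]
      refine ⟨p, hp, hp0, ?_⟩
      rw [← hunder, HeightOneSpectrum.under_asIdeal, Ideal.under_def, Ideal.mem_comap,
        map_natCast]
      exact hmem
    · have h4 : ∑ v ∈ W.image (fun u => HeightOneSpectrum.under (𝓞 K) u), lN v ≤
          ∑ u ∈ W, lN u := sum_under_le W _ fun v hv => Finset.mem_image.mp hv
      exact h4.trans (hWs.trans (mul_le_mul_of_nonneg_left hht hσ))
  choose! F hFE hFl using key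
  have hinj : Set.InjOn F T := by
    intro P hP P' hP' hPP
    obtain ⟨l, hl, h⟩ := hFl P hP
    obtain ⟨l', hl', h'⟩ := hFl P' hP'
    rw [← P.mk_rep, ← P'.mk_rep, Projectivization.mk_eq_mk_iff']
    refine ⟨l⁻¹ * l', ?_⟩
    funext i
    have e : l * P.rep i = l' * P'.rep i := by rw [← h i, ← h' i, hPP]
    rw [Pi.smul_apply, smul_eq_mul, mul_assoc, ← e, ← mul_assoc, inv_mul_cancel₀ hl, one_mul]
  have hmaps : Set.MapsTo F T E := fun P hP => hFE P hP
  refine ⟨Set.Finite.of_injOn hmaps hinj hEf, ?_⟩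
  have h4 : (T.ncard : ℝ) ≤ (E.ncard : ℝ) := by
    exact_mod_cast Set.ncard_le_ncard_of_injOn F hFE hinj hEf
  refine h4.trans ((hcore B (σ * U) hB1 (by positivity)).trans ?_)
  have h5 := pow_bound (c := 2 * c0) (B := B) (y := y) (E := e) (by linarith)
    (by positivity) hyB hBu
  have h6 : y ^ e = Real.exp ((((m - ρ : ℕ) : ℝ) + ε₁ / n) * U) := by
    rw [hy, ← Real.exp_mul, he]
    congr 1
    field_simp
  rw [h6] at h5
  calc C1 * (B : ℝ) ^ ((finrank ℚ K : ℝ) * (m - ρ : ℕ) + ε₁) *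
        Real.exp ((1 + ε₁) * (σ * U))
      ≤ C1 * ((2 * c0) ^ |e| * Real.exp ((((m - ρ : ℕ) : ℝ) + ε₁ / n) * U)) *
        Real.exp ((1 + ε₁) * (σ * U)) := by
        refine mul_le_mul_of_nonneg_right (mul_le_mul_of_nonneg_left h5 hC1.le)
          (Real.exp_pos _).le
    _ = C1 * (2 * c0) ^ |e| * (Real.exp ((((m - ρ : ℕ) : ℝ) + ε₁ / n) * U) *
        Real.exp ((1 + ε₁) * (σ * U))) := by ring
    _ ≤ C1 * (2 * c0) ^ |e| *
        Real.exp ((((m - ρ : ℕ) : ℝ) + σ + ε) * U) := by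
        refine mul_le_mul_of_nonneg_left ?_ (by positivity)
        rw [← Real.exp_add]
        refine Real.exp_le_exp.2 ?_
        have h9 : ε₁ / n ≤ ε₁ := div_le_self hε₁0.le hn1
        have h10 : (((m - ρ : ℕ) : ℝ) + ε₁ / n) * U + (1 + ε₁) * (σ * U) =
            (((m - ρ : ℕ) : ℝ) + σ + (ε₁ / n + ε₁ * σ)) * U := by ring
        rw [h10]
        refine mul_le_mul_of_nonneg_right ?_ hU
        have h11 : ε₁ + ε₁ * σ = ε := by rw [← hε₁σ]; ring
        linarith

/-- `g` are equations of closed points which impose at least `ρ` conditions on the system -/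
def Eqs {m : ℕ} (f : Fin m → A) (ρ : ℕ) {q : ℕ} (u : Fin q → ℕ) (g : ∀ j, Fin (u j) → A) : Prop :=
  ∃ x : Fin q → Pnt K A, (∀ j, RingHom.ker (x j).ψ = Ideal.span (Set.range (g j))) ∧
    ρ ≤ cnd x f ∧ ρ ≤ m

/-- one exceptional set -/
theorem oneQ (hdom : IsDomain (TensorProduct K (AlgebraicClosure K) A)) {m : ℕ}
    (f : Fin m → A) (hf : LinearIndependent K f) (γ : ℝ) (hγ : γ < m) :
    ∃ E : Set (ℙ K (Fin m → K)),
      (∀ U : ℝ, 0 ≤ U → {P | P ∈ E ∧ Height.logHeight P.rep ≤ U}.Finite ∧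
        ({P | P ∈ E ∧ Height.logHeight P.rep ≤ U}.ncard : ℝ) ≤
          Real.exp ((m - γ) * U - √U)) ∧
      ∀ (q : ℕ) (x : Fin q → Pnt K A) (u : Fin q → ℕ) (g : ∀ j, Fin (u j) → A) (S : Finset ℕ)
        (ρ : ℕ), (∀ j, RingHom.ker (x j).ψ = Ideal.span (Set.range (g j))) → ρ ≤ cnd x f → ρ ≤ m →
        ∀ τ : ℝ, τ < ρ - γ → ∃ U₀ : ℝ, 0 ≤ U₀ ∧
        ∀ (M : Type) [Field M] [NumberField M] [Algebra K M] (φ : A →ₐ[K] M)
          (P : ℙ K (Fin m → K)), P ∉ E → Function.Surjective φ →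
          RingHom.ker φ = Ideal.span {mem f P.rep} → U₀ < Height.logHeight P.rep →
          (∀ j, RingHom.ker φ ≠ RingHom.ker (x j).ψ) →
          ∀ W : Finset (HeightOneSpectrum (𝓞 M)), (∀ j w, NearC S (g j) φ w → w ∈ W) →
            τ * Height.logHeight P.rep ≤ ∑ w ∈ W, lN w := by
  classical
  have hcA := Pool.Agent.N297.CV.MainC.countable_A K A
  let Jt : Type := {t : (Σ q : ℕ, Σ u : Fin q → ℕ, (∀ j, Fin (u j) → A) × Finset ℕ × ℕ × ℕ) //
    Eqs (K := K) f t.2.2.2.2.1 t.2.1 t.2.2.1}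
  have hJ : Countable Jt := inferInstance
  let sg : Jt → ℝ := fun t => (t.1.2.2.2.2.1 : ℝ) - γ - 1 / ((t.1.2.2.2.2.2 : ℝ) + 1)
  let AA : Jt → ℙ K (Fin m → K) → Prop := fun t P =>
    0 ≤ sg t ∧ BadQ t.1.2.1 f t.1.2.2.1 t.1.2.2.2.1 (sg t) P
  obtain ⟨E, hE1, hE2⟩ := Pool.Agent.N572.DR.Diag.t (ℙ K (Fin m → K)) Jt
    (fun U P => Height.logHeight P.rep ≤ U)
    (fun U U' P h hP => hP.trans h) AA ((m : ℝ) - γ) (by linarith) (by
      rintro ⟨⟨q, u, g, S, ρ, k⟩, hEq⟩
      obtain ⟨x, hx1, hx2, hx3⟩ := id hEq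
      simp only at hx1 hx2 hx3
      set η : ℝ := 1 / ((k : ℝ) + 1) with hη
      have hη0 : 0 < η := by positivity
      by_cases hσ : 0 ≤ (ρ : ℝ) - γ - η
      · obtain ⟨C, hC, h⟩ := cntQ hdom f hf x u g hx1 S ((ρ : ℝ) - γ - η) hσ
          (ε := η / 2) (by positivity)
        refine ⟨η / 2, C, by positivity, fun U hU => ?_⟩
        obtain ⟨h1, h2⟩ := h U hU
        have hset : {P : ℙ K (Fin m → K) | AA ⟨⟨q, u, g, S, ρ, k⟩, hEq⟩ P ∧
            Height.logHeight P.rep ≤ U} =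
            {P | BadQ u f g S ((ρ : ℝ) - γ - η) P ∧ Height.logHeight P.rep ≤ U} := by
          ext P
          constructor
          · rintro ⟨⟨-, h3⟩, h4⟩
            exact ⟨h3, h4⟩
          · rintro ⟨h3, h4⟩
            exact ⟨⟨hσ, h3⟩, h4⟩
        rw [hset]
        refine ⟨h1, h2.trans (mul_le_mul_of_nonneg_left (Real.exp_le_exp.2 ?_) hC.le)⟩
        refine mul_le_mul_of_nonneg_right ?_ hU
        have e1 : ((m - cnd x f : ℕ) : ℝ) ≤ (m : ℝ) - ρ := by
          have e2 : ((m - cnd x f : ℕ) : ℝ) ≤ ((m - ρ : ℕ) : ℝ) := by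
            exact_mod_cast (by omega : m - cnd x f ≤ m - ρ)
          rwa [Nat.cast_sub hx3] at e2
        linarith
      · refine ⟨1, 1, one_pos, fun U hU => ?_⟩
        have hset : {P : ℙ K (Fin m → K) | AA ⟨⟨q, u, g, S, ρ, k⟩, hEq⟩ P ∧
            Height.logHeight P.rep ≤ U} = ∅ := by
          ext P
          simp only [Set.mem_empty_iff_false, iff_false]
          rintro ⟨⟨h3, -⟩, -⟩
          exact hσ h3
        rw [hset]
        refine ⟨Set.finite_empty, ?_⟩
        rw [Set.ncard_empty, Nat.cast_zero, one_mul]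
        exact (Real.exp_pos _).le)
  refine ⟨E, hE1, ?_⟩
  intro q x u g S ρ hg hρ hρm τ hτ
  obtain ⟨k, hk⟩ := exists_nat_one_div_lt (sub_pos.2 hτ)
  obtain ⟨U₀, hU₀, h⟩ := hE2 ⟨⟨q, u, g, S, ρ, k⟩, x, hg, hρ, hρm⟩
  refine ⟨U₀, hU₀, ?_⟩
  intro M _ _ _ φ P hP hφ hker hht hne W hW
  have hh0 : 0 ≤ Height.logHeight P.rep := Height.logHeight_nonneg _
  have hs0 : 0 ≤ ∑ w ∈ W, lN w := Finset.sum_nonneg fun w _ => lN_nonneg w
  have hsg : τ ≤ sg ⟨⟨q, u, g, S, ρ, k⟩, x, hg, hρ, hρm⟩ := by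
    show τ ≤ (ρ : ℝ) - γ - 1 / ((k : ℝ) + 1)
    linarith
  by_contra hcon
  push Not at hcon
  have hτ0 : 0 ≤ sg ⟨⟨q, u, g, S, ρ, k⟩, x, hg, hρ, hρm⟩ := by
    by_contra h1
    push Not at h1
    have h2 : τ * Height.logHeight P.rep ≤ 0 := by nlinarith
    linarith
  have hbad : AA ⟨⟨q, u, g, S, ρ, k⟩, x, hg, hρ, hρm⟩ P := by
    refine ⟨hτ0, M, inferInstance, inferInstance, inferInstance, φ, hφ, hker, fun j h1 =>
      hne j (h1.trans (hg j).symm), W, hW, ?_⟩
    exact hcon.le.trans (mul_le_mul_of_nonneg_right hsg hh0)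
  exact absurd (h P hP hbad) (not_le.2 hht)

end Pool.Agent.J6H73.CP
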