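import Mathlib
import Pool.Agent.J6H73.CP.Count
import Pool.Agent.J6H73.P1.Num
import Pool.Agent.N751.LS.Pole

/-!
# Closed points of curves: the local heights near a closed point over a divisor
-/

set_option autoImplicit false
set_option linter.unusedSectionVars false

namespace Pool.Agent.J6H73.CP

open NumberField IsDedekindDomain Module Polynomial Pool.Agent.N753.DR Height
open Pool.Agent.J6H60.DR (rk Pnt cnd near_finite)
open Pool.Agent.J6H73.P1
open Pool.Agent.N751.LS (pole_val)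

variable {K A : Type} [Field K] [NumberField K] [CommRing A] [IsDomain A]
  [Algebra K A] [Algebra K[X] A] [IsScalarTower K K[X] A] [Module.Finite K[X] A]
  [FaithfulSMul K[X] A]

/-- the values of one function near a closed point -/
theorem val_one {u : ℕ} (g : Fin u → A) (hmax : (Ideal.span (Set.range g)).IsMaximal) (a : A) :
    ∃ d : ℕ, d ≠ 0 ∧ ∀ (M : Type) [Field M] [NumberField M] [Algebra K M] (φ : A →ₐ[K] M)
      (w : HeightOneSpectrum (𝓞 M)), (d : 𝓞 M) ∉ w.asIdeal →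
      w.valuation M (φ (algebraMap K[X] A X)) ≤ 1 → (∀ l, w.valuation M (φ (g l)) < 1) →
      w.valuation M (φ a) ≤ 1 ∧ (a ∉ Ideal.span (Set.range g) → w.valuation M (φ a) = 1) ∧
        (a ∈ Ideal.span (Set.range g) → w.valuation M (φ a) < 1) := by
  classical
  by_cases ha : a ∈ Ideal.span (Set.range g)
  · obtain ⟨d, hd, h⟩ := pole_val (K := K) g hmax (F := 1) (G := a)
      (fun h => hmax.ne_top ((Ideal.eq_top_iff_one _).2 h)) ha
    refine ⟨d, hd, fun M _ _ _ φ w hw hX hl => ?_⟩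
    obtain ⟨h1, -⟩ := h M φ w hw hX hl
    exact ⟨h1.le, fun h2 => absurd ha h2, fun _ => h1⟩
  · obtain ⟨d, hd, h⟩ := pole_val (K := K) g hmax (F := a) (G := 0) ha (Ideal.zero_mem _)
    refine ⟨d, hd, fun M _ _ _ φ w hw hX hl => ?_⟩
    obtain ⟨-, h1⟩ := h M φ w hw hX hl
    exact ⟨h1.le, fun _ => h1, fun h2 => absurd h2 ha⟩

/-- the values of finitely many functions near a closed point -/
theorem val_many {u : ℕ} (g : Fin u → A) (hmax : (Ideal.span (Set.range g)).IsMaximal)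
    {ι : Type} [Fintype ι] (a : ι → A) :
    ∃ d : ℕ, d ≠ 0 ∧ ∀ (M : Type) [Field M] [NumberField M] [Algebra K M] (φ : A →ₐ[K] M)
      (w : HeightOneSpectrum (𝓞 M)), (d : 𝓞 M) ∉ w.asIdeal →
      w.valuation M (φ (algebraMap K[X] A X)) ≤ 1 → (∀ l, w.valuation M (φ (g l)) < 1) → ∀ i,
      w.valuation M (φ (a i)) ≤ 1 ∧ (a i ∉ Ideal.span (Set.range g) → w.valuation M (φ (a i)) = 1) ∧
        (a i ∈ Ideal.span (Set.range g) → w.valuation M (φ (a i)) < 1) := by
  classical
  choose d hd h using fun i => val_one (K := K) g hmax (a i)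
  refine ⟨∏ i, d i, Finset.prod_ne_zero_iff.2 fun i _ => hd i, ?_⟩
  intro M _ _ _ φ w hw hX hl i
  refine h i M φ w (fun h1 => hw ?_) hX hl
  rw [Nat.cast_prod]
  exact Ideal.mem_of_dvd _ (Finset.dvd_prod_of_mem (fun i => ((d i : ℕ) : 𝓞 M))
    (Finset.mem_univ i)) h1

/-- near a closed point over the divisor the local height is at least the logarithm of the norm -/
theorem near_pt {u : ℕ} (g : Fin u → A) (hmax : (Ideal.span (Set.range g)).IsMaximal)
    (y z : Fin 2 → A) {F : MvPolynomial (Fin 2 ⊕ Fin 2) K} (q s : ℕ) (hF : F ≠ 0)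
    (hy : ∃ i, y i ∉ Ideal.span (Set.range g)) (hz : ∃ i, z i ∉ Ideal.span (Set.range g))
    (hR : MvPolynomial.aeval (Sum.elim y z) F ∈ Ideal.span (Set.range g)) :
    ∃ d : ℕ, d ≠ 0 ∧ ∀ (M : Type) [Field M] [NumberField M] [Algebra K M] (φ : A →ₐ[K] M)
      (w : HeightOneSpectrum (𝓞 M)), (d : 𝓞 M) ∉ w.asIdeal →
      w.valuation M (φ (algebraMap K[X] A X)) ≤ 1 → (∀ l, w.valuation M (φ (g l)) < 1) →
      MvPolynomial.aeval (Sum.elim (fun i => φ (y i)) (fun i => φ (z i))) F ≠ 0 →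
      lN w ≤ lam F q s w (fun i => φ (y i)) (fun i => φ (z i)) := by
  classical
  obtain ⟨d, hd, h⟩ := val_many (K := K) g hmax (ι := Fin 2 ⊕ Fin 2 ⊕ Unit ⊕ F.support)
    (Sum.elim y (Sum.elim z (Sum.elim (fun _ => MvPolynomial.aeval (Sum.elim y z) F)
      (fun d => algebraMap K A (F.coeff d.1)))))
  refine ⟨d, hd, fun M _ _ _ φ w hw hx hQx h0 => ?_⟩
  have h1 := h M φ w hw hx hQx
  refine lN_le_lam q s w h0 ?_ ?_ ?_ ?_
  · have h2 := (h1 (Sum.inr (Sum.inr (Sum.inl ())))).2.2 hR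
    have h3 : φ (MvPolynomial.aeval (Sum.elim y z) F) =
        MvPolynomial.aeval (Sum.elim (fun i => φ (y i)) (fun i => φ (z i))) F := by
      rw [MvPolynomial.comp_aeval_apply]
      congr 1
      congr 1
      funext i
      cases i <;> rfl
    rw [← h3]
    exact h2
  · have h2 : ∀ d : F.support, FinitePlace.mk w (algebraMap K M (F.coeff d.1)) = 1 := by
      intro d
      have h3 := (h1 (Sum.inr (Sum.inr (Sum.inr d)))).2.1 (by
        intro h4
        have h5 : F.coeff d.1 ≠ 0 := MvPolynomial.mem_support_iff.1 d.2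
        exact hmax.ne_top (Ideal.eq_top_of_isUnit_mem _ h4
          ((isUnit_iff_ne_zero.2 h5).map (algebraMap K A))))
      have h4 : w.valuation M (algebraMap K M (F.coeff d.1)) = 1 := by
        rw [← φ.commutes]
        exact h3
      exact mk_eq_one h4
    obtain ⟨d0, hd0⟩ := MvPolynomial.support_nonempty.2 hF
    have : Nonempty F.support := ⟨⟨d0, hd0⟩⟩
    simp only [h2, ciSup_const]
  · refine sup2_eq_one (fun i => (h1 (Sum.inl i)).1) ?_
    obtain ⟨i, hi⟩ := hy
    exact ⟨i, (h1 (Sum.inl i)).2.1 hi⟩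
  · refine sup2_eq_one (fun i => (h1 (Sum.inr (Sum.inl i))).1) ?_
    obtain ⟨i, hi⟩ := hz
    exact ⟨i, (h1 (Sum.inr (Sum.inl i))).2.1 hi⟩

/-- two closed points are not met at the same prime -/
theorem disj_pt {u u' : ℕ} (g : Fin u → A) (hmax : (Ideal.span (Set.range g)).IsMaximal)
    (g' : Fin u' → A) (hmax' : (Ideal.span (Set.range g')).IsMaximal)
    (hne : Ideal.span (Set.range g) ≠ Ideal.span (Set.range g')) :
    ∃ d : ℕ, d ≠ 0 ∧ ∀ (M : Type) [Field M] [NumberField M] [Algebra K M] (φ : A →ₐ[K] M)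
      (w : HeightOneSpectrum (𝓞 M)), (d : 𝓞 M) ∉ w.asIdeal →
      w.valuation M (φ (algebraMap K[X] A X)) ≤ 1 → (∀ l, w.valuation M (φ (g l)) < 1) →
      ¬ ∀ l, w.valuation M (φ (g' l)) < 1 := by
  classical
  have hexi : ∃ l, g' l ∉ Ideal.span (Set.range g) := by
    by_contra hcon
    push Not at hcon
    have hle : Ideal.span (Set.range g') ≤ Ideal.span (Set.range g) := by
      rw [Ideal.span_le]
      rintro _ ⟨l, rfl⟩
      exact hcon l
    exact hne (hmax'.eq_of_le hmax.ne_top hle).symm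
  obtain ⟨l, hl⟩ := hexi
  obtain ⟨d, hd, h⟩ := val_one (K := K) g hmax (g' l)
  refine ⟨d, hd, fun M _ _ _ φ w hw hX hg hcon => ?_⟩
  have h1 := (h M φ w hw hX hg).2.1 hl
  exact absurd (hcon l) (by rw [h1]; exact lt_irrefl _)

end Pool.Agent.J6H73.CP
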