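import Mathlib
import Pool.Agent.N265.CV.Htc
import Pool.Agent.N751.LS.Pole
import Pool.Agent.N490.FR.HtPure

/-!
# Heights of the values of a rational function at the zeros of members of a linear system
-/

set_option autoImplicit false
set_option linter.unusedSectionVars false

namespace Pool.Agent.J6H73.CP

open NumberField Module Polynomial Pool.Agent.N753.DR Height
open scoped LinearAlgebra.Projectivization

/-- the degree of the map `(F : G)` -/
noncomputable def dgm (K : Type) {A : Type} [Field K] [CommRing A] [IsDomain A] [Algebra K A] (F G : A) : ℕ :=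
  Module.finrank (IntermediateField.adjoin K
    {algebraMap A (FractionRing A) F / algebraMap A (FractionRing A) G}) (FractionRing A)

/-- the degree of the zero of a member is bounded -/
def StmDeg : Prop := ∀ (K A : Type) [Field K] [NumberField K] [CommRing A] [IsDomain A]
  [Algebra K A] [Algebra K[X] A] [IsScalarTower K K[X] A] [Module.Finite K[X] A]
  [FaithfulSMul K[X] A] (m : ℕ) (f : Fin m → A), LinearIndependent K f →
  ∃ D : ℕ, ∀ (M : Type) [Field M] [NumberField M] [Algebra K M] (φ : A →ₐ[K] M)
    (c : Fin m → K), Function.Surjective φ → RingHom.ker φ = Ideal.span {mem f c} → c ≠ 0 →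
    finrank K M ≤ D

/-- the height of the value of `(F : G)` at the zero of a member is at most the degree of the map `(F : G)`
times the height of the member, up to a constant -/
def StmHt : Prop := ∀ (K A : Type) [Field K] [NumberField K] [CommRing A] [IsDomain A]
  [Algebra K A] [Algebra K[X] A] [IsScalarTower K K[X] A] [Module.Finite K[X] A]
  [FaithfulSMul K[X] A] (m : ℕ) (f : Fin m → A), LinearIndependent K f → ∀ F G : A,
  ∃ C : ℝ, ∀ (M : Type) [Field M] [NumberField M] [Algebra K M] (φ : A →ₐ[K] M)
    (c : Fin m → K), Function.Surjective φ → RingHom.ker φ = Ideal.span {mem f c} → c ≠ 0 →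
    (φ F ≠ 0 ∨ φ G ≠ 0) →
    logHeight ![φ F, φ G] ≤ dgm K F G * logHeight c + C

end Pool.Agent.J6H73.CP
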