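import Mathlib
import Pool.Agent.J6H73.CP.Near
import Pool.Agent.J6H73.CP.Stm

/-!
# Maps of curves to `ℙ¹ × ℙ¹`: the truncated inequality at closed points in linear systems
-/

set_option autoImplicit false
set_option linter.unusedSectionVars false

namespace Pool.Agent.J6H73.CP

open NumberField IsDedekindDomain Module Polynomial Pool.Agent.N753.DR Height
open Pool.Agent.J6H60.DR (rk Pnt cnd near_finite)
open Pool.Agent.J6H73.P1
open scoped LinearAlgebra.Projectivization

/-- the members of the linear system which vanish at the closed points of `G` -/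
def vanish (K : Type) {A : Type} [Field K] [CommRing A] [Algebra K A] {m : ℕ} (f : Fin m → A)
    (G : Finset (MaximalSpectrum A)) : Submodule K (Fin m → K) where
  carrier := {c | ∀ z ∈ G, mem f c ∈ z.asIdeal}
  add_mem' := by
    intro c c' h h' z hz
    have : mem f (c + c') = mem f c + mem f c' := by
      unfold mem
      rw [← Finset.sum_add_distrib]
      exact Finset.sum_congr rfl fun i _ => by rw [Pi.add_apply, add_smul]
    rw [this]
    exact add_mem (h z hz) (h' z hz)
  zero_mem' := by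
    intro z _
    have : mem f (0 : Fin m → K) = 0 := by
      unfold mem
      exact Finset.sum_eq_zero fun i _ => by rw [Pi.zero_apply, zero_smul]
    rw [this]
    exact zero_mem _
  smul_mem' := by
    intro a c h z hz
    have : mem f (a • c) = a • mem f c := by
      unfold mem
      rw [Finset.smul_sum]
      exact Finset.sum_congr rfl fun i _ => by rw [Pi.smul_apply, smul_eq_mul, mul_smul]
    rw [this]
    exact Submodule.smul_of_tower_mem z.asIdeal a (h z hz)

/-- the number of conditions -/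
noncomputable def conds (K : Type) {A : Type} [Field K] [CommRing A] [Algebra K A] {m : ℕ}
    (f : Fin m → A) (G : Finset (MaximalSpectrum A)) : ℕ := m - finrank K (vanish K f G)

variable {K A : Type} [Field K] [NumberField K] [CommRing A] [IsDomain A]
  [Algebra K A] [Algebra K[X] A] [IsScalarTower K K[X] A] [Module.Finite K[X] A]
  [FaithfulSMul K[X] A]

/-- the conditions imposed by closed points -/
theorem cnd_eq {m q : ℕ} (f : Fin m → A) (G : Finset (MaximalSpectrum A)) (x : Fin q → Pnt K A)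
    (h1 : ∀ j, ∃ z ∈ G, RingHom.ker (x j).ψ = z.asIdeal)
    (h2 : ∀ z ∈ G, ∃ j, RingHom.ker (x j).ψ = z.asIdeal) :
    conds K f G = cnd x f := by
  classical
  let T : (Fin m → K) →ₗ[K] (∀ j, (x j).L) :=
    Fintype.linearCombination K (fun i : Fin m => (fun j => (x j).ψ (f i) : ∀ j, (x j).L))
  have hT : ∀ c j, T c j = (x j).ψ (mem f c) := by
    intro c j
    show (Fintype.linearCombination K (fun i : Fin m => (fun j => (x j).ψ (f i) :
      ∀ j, (x j).L)) c) j = _
    rw [Fintype.linearCombination_apply, Finset.sum_apply]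
    unfold mem
    rw [map_sum]
    exact Finset.sum_congr rfl fun i _ => by rw [Pi.smul_apply, map_smul]
  have hker : LinearMap.ker T = vanish K f G := by
    ext c
    rw [LinearMap.mem_ker]
    constructor
    · intro h z hz
      obtain ⟨j, hj⟩ := h2 z hz
      rw [← hj]
      show (x j).ψ (mem f c) = 0
      rw [← hT, h]
      rfl
    · intro h
      funext j
      obtain ⟨z, hz, hj⟩ := h1 j
      rw [hT]
      have h3 : mem f c ∈ z.asIdeal := h z hz
      rw [← hj] at h3
      exact h3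
  have hrange : LinearMap.range T =
      Submodule.span K (Set.range fun i : Fin m => (fun j => (x j).ψ (f i) : ∀ j, (x j).L)) :=
    Fintype.range_linearCombination K _
  have h3 := LinearMap.finrank_range_add_finrank_ker T
  rw [hker, finrank_fin_fun, hrange] at h3
  have h4 : cnd x f = finrank K (Submodule.span K
    (Set.range fun i : Fin m => (fun j => (x j).ψ (f i) : ∀ j, (x j).L))) := rfl
  unfold conds
  omega

omit [NumberField K] [IsDomain A] [FaithfulSMul K[X] A] in
theorem finite_residue (z : MaximalSpectrum A) : Module.Finite K (A ⧸ z.asIdeal) := by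
  have h1 : Algebra.FiniteType K K[X] := inferInstance
  have h2 : Algebra.FiniteType K[X] A := inferInstance
  have h3 : Algebra.FiniteType K A := Algebra.FiniteType.trans h1 h2
  have h4 : Algebra.FiniteType K (A ⧸ z.asIdeal) :=
    Algebra.FiniteType.of_surjective (Ideal.Quotient.mkₐ K z.asIdeal)
      (Ideal.Quotient.mkₐ_surjective K z.asIdeal)
  have h5 : z.asIdeal.IsMaximal := z.isMaximal
  let : Field (A ⧸ z.asIdeal) := Ideal.Quotient.field z.asIdeal
  exact finite_of_finite_type_of_isJacobsonRing K (A ⧸ z.asIdeal)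

/-- the closed point of a maximal ideal -/
theorem exists_pnt (z : MaximalSpectrum A) : ∃ x : Pnt K A, RingHom.ker x.ψ = z.asIdeal := by
  have h5 : z.asIdeal.IsMaximal := z.isMaximal
  have hfin : Module.Finite K (A ⧸ z.asIdeal) := finite_residue z
  let : Field (A ⧸ z.asIdeal) := Ideal.Quotient.field z.asIdeal
  have hchar : CharZero (A ⧸ z.asIdeal) := charZero_of_injective_algebraMap
    (algebraMap K (A ⧸ z.asIdeal)).injective
  let : Algebra ℚ (A ⧸ z.asIdeal) := DivisionRing.toRatAlgebra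
  have hnf : NumberField (A ⧸ z.asIdeal) := by
    have h6 : IsScalarTower ℚ K (A ⧸ z.asIdeal) := inferInstance
    exact { to_charZero := hchar
            to_finiteDimensional := Module.Finite.trans K (A ⧸ z.asIdeal) }
  exact ⟨{ L := A ⧸ z.asIdeal
           ψ := Ideal.Quotient.mkₐ K z.asIdeal
           surj := Ideal.Quotient.mkₐ_surjective K z.asIdeal },
    Ideal.Quotient.mkₐ_ker K z.asIdeal⟩

/-- evaluation of the form -/
theorem ev_hom {M : Type} [Field M] [Algebra K M] (φ : A →ₐ[K] M) (y z : Fin 2 → A)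
    (F : MvPolynomial (Fin 2 ⊕ Fin 2) K) : φ (MvPolynomial.aeval (Sum.elim y z) F) =
      MvPolynomial.aeval (Sum.elim (fun i => φ (y i)) (fun i => φ (z i))) F := by
  rw [MvPolynomial.comp_aeval_apply]
  congr 1
  congr 1
  funext i
  cases i <;> rfl

theorem logHeight_pair {M : Type} [Field M] [NumberField M] (v : Fin 2 → M) :
    logHeight ![v 0, v 1] = logHeight v := by
  congr 1
  funext i
  fin_cases i <;> rfl

/-- the truncated inequality -/
theorem finalQ (ht : StmHt) {m : ℕ} (f : Fin m → A) (hf : LinearIndependent K f) {γ : ℝ}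
    {E : Set (ℙ K (Fin m → K))}
    (hE : ∀ (q : ℕ) (x : Fin q → Pnt K A) (u : Fin q → ℕ) (g : ∀ j, Fin (u j) → A) (S : Finset ℕ)
        (ρ : ℕ), (∀ j, RingHom.ker (x j).ψ = Ideal.span (Set.range (g j))) → ρ ≤ cnd x f → ρ ≤ m →
        ∀ τ : ℝ, τ < ρ - γ → ∃ U₀ : ℝ, 0 ≤ U₀ ∧
        ∀ (M : Type) [Field M] [NumberField M] [Algebra K M] (φ : A →ₐ[K] M)
          (P : ℙ K (Fin m → K)), P ∉ E → Function.Surjective φ →
          RingHom.ker φ = Ideal.span {mem f P.rep} → U₀ < Height.logHeight P.rep →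
          (∀ j, RingHom.ker φ ≠ RingHom.ker (x j).ψ) →
          ∀ W : Finset (HeightOneSpectrum (𝓞 M)), (∀ j w, NearC S (g j) φ w → w ∈ W) →
            τ * Height.logHeight P.rep ≤ ∑ w ∈ W, lN w)
    {q s : ℕ} (y z : Fin 2 → A) {F : MvPolynomial (Fin 2 ⊕ Fin 2) K}
    (hF : F.IsWeightedHomogeneous wts (q, s))
    (hR : MvPolynomial.aeval (Sum.elim y z) F ≠ 0) (S : Finset ℕ) (hS : ∀ p ∈ S, p ≠ 0)
    (t : ℕ) (G : Fin t → Finset (MaximalSpectrum A)) (hG : ∀ i j, i ≠ j → Disjoint (G i) (G j))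
    (hov : ∀ i, ∀ x ∈ G i, (∃ l, y l ∉ x.asIdeal) ∧ (∃ l, z l ∉ x.asIdeal) ∧
      MvPolynomial.aeval (Sum.elim y z) F ∈ x.asIdeal)
    (κ₁ κ₂ : ℝ) (hκ₁ : 0 ≤ κ₁) (hκ₂ : 0 ≤ κ₂)
    (hκ : κ₁ * dgm K (y 0) (y 1) + κ₂ * dgm K (z 0) (z 1) < ∑ i, ((conds K f (G i) : ℝ) - γ)) :
    ∃ C : ℝ, ∀ (M : Type) [Field M] [NumberField M] [Algebra K M] (φ : A →ₐ[K] M)
      (P : ℙ K (Fin m → K)), P ∉ E → Function.Surjective φ →
      RingHom.ker φ = Ideal.span {mem f P.rep} → (∃ l, φ (y l) ≠ 0) → (∃ l, φ (z l) ≠ 0) →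
      φ (MvPolynomial.aeval (Sum.elim y z) F) ≠ 0 →
      κ₁ * logHeight (fun i => φ (y i)) + κ₂ * logHeight (fun i => φ (z i)) ≤
        cnt S F q s (fun i => φ (y i)) (fun i => φ (z i)) + C := by
  classical
  set R := MvPolynomial.aeval (Sum.elim y z) F with hRdef
  have hF0 : F ≠ 0 := by rintro rfl; simp [hRdef] at hR
  set a : ℝ := ((dgm K (y 0) (y 1) : ℕ) : ℝ) with ha
  set b : ℝ := ((dgm K (z 0) (z 1) : ℕ) : ℝ) with hb
  set δ : ℝ := ∑ i, ((conds K f (G i) : ℝ) - γ) - (κ₁ * a + κ₂ * b) with hδ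
  have hδ0 : 0 < δ := sub_pos.2 hκ
  set η : ℝ := δ / (t + 1) with hη
  have hη0 : 0 < η := by positivity
  have hηt : t * η ≤ δ := by
    rw [hη, mul_div_assoc', div_le_iff₀ (by positivity)]
    nlinarith
  set τ : Fin t → ℝ := fun i => (conds K f (G i) : ℝ) - γ - η with hτ
  have hτs : κ₁ * a + κ₂ * b ≤ ∑ i, τ i := by
    rw [hτ, Finset.sum_sub_distrib, Finset.sum_const, Finset.card_univ, Fintype.card_fin,
      nsmul_eq_mul]
    linarith
  -- generators
  have hnoeth : IsNoetherianRing A := IsNoetherianRing.of_finite K[X] A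
  have hgen : ∀ x : MaximalSpectrum A, ∃ (u : ℕ) (g : Fin u → A),
      Ideal.span (Set.range g) = x.asIdeal :=
    fun x => Submodule.fg_iff_exists_fin_generating_family.1
      (IsNoetherian.noetherian (x.asIdeal : Ideal A))
  choose u g hg using hgen
  have hmax : ∀ x : MaximalSpectrum A, (Ideal.span (Set.range (g x))).IsMaximal := fun x => by
    rw [hg x]
    exact x.isMaximal
  choose pt hpt using exists_pnt (K := K) (A := A)
  -- the primes
  have h1 : ∀ i, ∀ x : G i, ∃ d : ℕ, d ≠ 0 ∧ ∀ (M : Type) [Field M] [NumberField M]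
      [Algebra K M] (φ : A →ₐ[K] M) (w : HeightOneSpectrum (𝓞 M)), (d : 𝓞 M) ∉ w.asIdeal →
      w.valuation M (φ (algebraMap K[X] A X)) ≤ 1 → (∀ l, w.valuation M (φ (g x.1 l)) < 1) →
      MvPolynomial.aeval (Sum.elim (fun i => φ (y i)) (fun i => φ (z i))) F ≠ 0 →
      lN w ≤ lam F q s w (fun i => φ (y i)) (fun i => φ (z i)) := by
    intro i x
    obtain ⟨h2, h3, h4⟩ := hov i x.1 x.2
    rw [← hg x.1] at h2 h3 h4
    exact near_pt (g x.1) (hmax x.1) y z q s hF0 h2 h3 h4
  choose d1 hd1 g1 using h1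
  have h2 : ∀ x x' : MaximalSpectrum A, ∃ d : ℕ, d ≠ 0 ∧ (x ≠ x' →
      ∀ (M : Type) [Field M] [NumberField M] [Algebra K M] (φ : A →ₐ[K] M)
      (w : HeightOneSpectrum (𝓞 M)), (d : 𝓞 M) ∉ w.asIdeal →
      w.valuation M (φ (algebraMap K[X] A X)) ≤ 1 → (∀ l, w.valuation M (φ (g x l)) < 1) →
      ¬ ∀ l, w.valuation M (φ (g x' l)) < 1) := by
    intro x x'
    by_cases hxx : x = x'
    · exact ⟨1, one_ne_zero, fun h => absurd hxx h⟩
    · obtain ⟨d, hd, h⟩ := disj_pt (K := K) (g x) (hmax x) (g x') (hmax x') (by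
        rw [hg x, hg x']
        intro h
        exact hxx (MaximalSpectrum.ext h))
      exact ⟨d, hd, fun _ => h⟩
  choose d2 hd2 g2 using h2
  set T : Finset (MaximalSpectrum A) := Finset.univ.biUnion G with hT
  set S' : Finset ℕ := S ∪ (Finset.univ.biUnion fun i => (G i).attach.image (d1 i)) ∪
    (T ×ˢ T).image (fun zz => d2 zz.1 zz.2) with hS'
  -- the bounds for the groups
  have h3 : ∀ i, ∃ U₀ : ℝ, 0 ≤ U₀ ∧
        ∀ (M : Type) [Field M] [NumberField M] [Algebra K M] (φ : A →ₐ[K] M)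
          (P : ℙ K (Fin m → K)), P ∉ E → Function.Surjective φ →
          RingHom.ker φ = Ideal.span {mem f P.rep} → U₀ < Height.logHeight P.rep →
          (∀ x ∈ G i, RingHom.ker φ ≠ x.asIdeal) →
          ∀ W : Finset (HeightOneSpectrum (𝓞 M)),
            (∀ x ∈ G i, ∀ w, NearC S' (g x) φ w → w ∈ W) →
            τ i * Height.logHeight P.rep ≤ ∑ w ∈ W, lN w := by
    intro i
    set e := (G i).equivFin.symm with he
    have hc : conds K f (G i) = cnd (fun j => pt (e j : MaximalSpectrum A)) f := by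
      refine cnd_eq f (G i) _ (fun j => ⟨_, (e j).2, hpt _⟩) fun x hx => ?_
      refine ⟨e.symm ⟨x, hx⟩, ?_⟩
      rw [hpt, Equiv.apply_symm_apply]
    obtain ⟨U₀, hU₀, h⟩ := hE (G i).card (fun j => pt (e j : MaximalSpectrum A))
      (fun j => u (e j : MaximalSpectrum A)) (fun j => g (e j : MaximalSpectrum A)) S'
      (conds K f (G i)) (fun j => by rw [hpt, hg]) hc.le (by unfold conds; omega) (τ i) (by
        show (conds K f (G i) : ℝ) - γ - η < _
        linarith)
    refine ⟨U₀, hU₀, fun M _ _ _ φ P hPE hφ hker hU hne W hW => ?_⟩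
    exact h M φ P hPE hφ hker hU (fun j => by rw [hpt]; exact hne _ (e j).2) W
      fun j w h5 => hW _ (e j).2 w h5
  choose U₀ hU₀ g3 using h3
  obtain ⟨C2, hC2⟩ := ht K A m f hf (y 0) (y 1)
  obtain ⟨C3, hC3⟩ := ht K A m f hf (z 0) (z 1)
  refine ⟨(κ₁ * a + κ₂ * b) * ∑ i, U₀ i + κ₁ * C2 + κ₂ * C3,
    fun M _ _ _ φ P hPE hφ hker hy hz hRx => ?_⟩
  set h := Height.logHeight P.rep with hh
  have hh0 : 0 ≤ h := Height.logHeight_nonneg _
  have hRx' := hRx
  rw [hRdef, ev_hom] at hRx'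
  have hUs : 0 ≤ ∑ i, U₀ i := Finset.sum_nonneg fun i _ => hU₀ i
  have ha0 : 0 ≤ a := Nat.cast_nonneg _
  have hb0 : 0 ≤ b := Nat.cast_nonneg _
  have hab : 0 ≤ κ₁ * a + κ₂ * b := add_nonneg (mul_nonneg hκ₁ ha0) (mul_nonneg hκ₂ hb0)
  have hy0 : (fun i => φ (y i)) ≠ 0 := by
    obtain ⟨l, hl⟩ := hy
    exact fun h => hl (congrFun h l)
  have hz0 : (fun i => φ (z i)) ≠ 0 := by
    obtain ⟨l, hl⟩ := hz
    exact fun h => hl (congrFun h l)
  have e1 : logHeight (fun i => φ (y i)) ≤ a * h + C2 := by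
    rw [← logHeight_pair fun i => φ (y i)]
    refine hC2 M φ P.rep hφ hker P.rep_nonzero ?_
    obtain ⟨l, hl⟩ := hy
    fin_cases l
    · exact Or.inl hl
    · exact Or.inr hl
  have e2 : logHeight (fun i => φ (z i)) ≤ b * h + C3 := by
    rw [← logHeight_pair fun i => φ (z i)]
    refine hC3 M φ P.rep hφ hker P.rep_nonzero ?_
    obtain ⟨l, hl⟩ := hz
    fin_cases l
    · exact Or.inl hl
    · exact Or.inr hl
  have e3 := mul_le_mul_of_nonneg_left e1 hκ₁
  have e4 := mul_le_mul_of_nonneg_left e2 hκ₂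
  have key : (κ₁ * a + κ₂ * b) * h ≤
      cnt S F q s (fun i => φ (y i)) (fun i => φ (z i)) + (κ₁ * a + κ₂ * b) * ∑ i, U₀ i := by
    rcases le_or_gt h (∑ i, U₀ i) with hle | hgt
    · have h4 := cnt_ge S hF hy0 hz0 hRx' ∅ (by simp)
      rw [Finset.sum_empty] at h4
      have h5 := mul_le_mul_of_nonneg_left hle hab
      linarith
    · have hne : ∀ i, ∀ x ∈ G i, RingHom.ker φ ≠ x.asIdeal := by
        intro i x hx hk
        have h5 := (hov i x hx).2.2
        rw [← hk] at h5
        exact hRx h5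
      have hfin : ∀ i, {w : HeightOneSpectrum (𝓞 M) | ∃ x ∈ G i, NearC S' (g x) φ w}.Finite := by
        intro i
        have h4 : (⋃ x ∈ G i, {w : HeightOneSpectrum (𝓞 M) | NearC S' (g x) φ w}).Finite :=
          Set.Finite.biUnion (Finset.finite_toSet (G i)) fun x hx =>
            (near_finite (g x) (hmax x) S' φ (by rw [hg x]; exact hne i x hx)).2
        refine h4.subset fun w hw => ?_
        obtain ⟨x, hx, h5⟩ := hw
        exact Set.mem_iUnion₂.2 ⟨x, hx, h5⟩
      set V : Fin t → Finset (HeightOneSpectrum (𝓞 M)) := fun i => (hfin i).toFinset with hV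
      have hVm : ∀ i w, w ∈ V i ↔ ∃ x ∈ G i, NearC S' (g x) φ w := by
        intro i w
        rw [hV, Set.Finite.mem_toFinset]
        rfl
      have hdisj : ∀ i j, i ≠ j → Disjoint (V i) (V j) := by
        intro i j hij
        rw [Finset.disjoint_left]
        intro w hw hw'
        obtain ⟨x, hx, h4, h5, h6⟩ := (hVm i w).1 hw
        obtain ⟨x', hx', -, -, h6'⟩ := (hVm j w).1 hw'
        have hne : x ≠ x' := fun h => Finset.disjoint_left.1 (hG i j hij) hx (h ▸ hx')
        refine g2 x x' hne M φ w (h4 _ ?_ (hd2 x x')) h5 h6 h6'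
        rw [hS', Finset.mem_union]
        exact Or.inr (Finset.mem_image.2 ⟨(x, x'), Finset.mem_product.2
          ⟨Finset.mem_biUnion.2 ⟨i, Finset.mem_univ _, hx⟩,
            Finset.mem_biUnion.2 ⟨j, Finset.mem_univ _, hx'⟩⟩, rfl⟩)
      have h4 := cnt_ge S hF hy0 hz0 hRx' (Finset.univ.biUnion V) (by
        intro w hw
        rw [Finset.mem_biUnion] at hw
        obtain ⟨i, -, hw⟩ := hw
        obtain ⟨x, hx, h4, h5, h6⟩ := (hVm i w).1 hw
        refine ⟨fun p hp => h4 p (by simp [hS', hp]) (hS p hp), ?_⟩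
        refine g1 i ⟨x, hx⟩ M φ w (h4 _ ?_ (hd1 i ⟨x, hx⟩)) h5 h6 hRx'
        rw [hS', Finset.mem_union, Finset.mem_union]
        exact Or.inl (Or.inr (Finset.mem_biUnion.2 ⟨i, Finset.mem_univ _,
          Finset.mem_image_of_mem _ (Finset.mem_attach _ _)⟩)))
      rw [Finset.sum_biUnion (fun i _ j _ h => hdisj i j h)] at h4
      have h5 : ∀ i, τ i * h ≤ ∑ w ∈ V i, lN w := by
        intro i
        refine g3 i M φ P hPE hφ hker ?_ (hne i) (V i) fun x hx w h7 => (hVm i w).2 ⟨x, hx, h7⟩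
        exact lt_of_le_of_lt (Finset.single_le_sum (fun j _ => hU₀ j) (Finset.mem_univ i)) hgt
      have h6 := Finset.sum_le_sum fun i (_ : i ∈ (Finset.univ : Finset (Fin t))) => h5 i
      rw [← Finset.sum_mul] at h6
      have h7 := mul_le_mul_of_nonneg_right hτs hh0
      have h8 : 0 ≤ (κ₁ * a + κ₂ * b) * ∑ i, U₀ i := mul_nonneg hab hUs
      linarith
  linarith

end Pool.Agent.J6H73.CP
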